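import Pool.Agent.TH931.LP.Stm

/-!
# LP931 (helper416 for helper931): common lemmas on blocks and frames
-/

set_option autoImplicit false

open MeasureTheory Set
open scoped ENNReal Matrix

noncomputable section

namespace Pool.Agent.TH416.LP931

open Pool.Agent.TH931.LP

section blocks

variable {a b : ℕ}

theorem p1_app (x : Fin a → ℝ) (y : Fin b → ℝ) : p1 (Fin.append x y) = x := by
  funext i; simp [p1]

theorem p2_app (x : Fin a → ℝ) (y : Fin b → ℝ) : p2 (Fin.append x y) = y := by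
  funext i; simp [p2]

theorem app_p (x : Fin (a + b) → ℝ) : Fin.append (p1 x) (p2 x) = x := by
  funext i
  refine Fin.addCases (fun i => ?_) (fun i => ?_) i <;> simp [p1, p2]

theorem p1_smul (t : ℝ) (x : Fin (a + b) → ℝ) : p1 (t • x) = t • p1 x := rfl

theorem p2_smul (t : ℝ) (x : Fin (a + b) → ℝ) : p2 (t • x) = t • p2 x := rfl

theorem dot_app (x : Fin a → ℝ) (y : Fin b → ℝ) (z : Fin (a + b) → ℝ) :
    Fin.append x y ⬝ᵥ z = x ⬝ᵥ p1 z + y ⬝ᵥ p2 z := by
  simp [dotProduct, Fin.sum_univ_add, p1, p2]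

theorem dot_app' (x : Fin a → ℝ) (y : Fin b → ℝ) (z : Fin (a + b) → ℝ) :
    z ⬝ᵥ Fin.append x y = p1 z ⬝ᵥ x + p2 z ⬝ᵥ y := by
  simp [dotProduct, Fin.sum_univ_add, p1, p2]

theorem p1_meas : Measurable (p1 : (Fin (a + b) → ℝ) → Fin a → ℝ) :=
  measurable_pi_lambda _ fun _ => measurable_pi_apply _

theorem p2_meas : Measurable (p2 : (Fin (a + b) → ℝ) → Fin b → ℝ) :=
  measurable_pi_lambda _ fun _ => measurable_pi_apply _

theorem app_meas : Measurable (fun x : (Fin a → ℝ) × (Fin b → ℝ) => Fin.append x.1 x.2) := by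
  refine measurable_pi_lambda _ fun i => ?_
  refine Fin.addCases (fun i => ?_) (fun i => ?_) i
  · simp only [Fin.append_left]
    exact (measurable_pi_apply i).comp measurable_fst
  · simp only [Fin.append_right]
    exact (measurable_pi_apply i).comp measurable_snd

theorem dot_meas {c : ℕ} (y : Fin c → ℝ) : Measurable (fun x : Fin c → ℝ => x ⬝ᵥ y) := by
  unfold dotProduct
  fun_prop

theorem dot_meas' {c : ℕ} (y : Fin c → ℝ) : Measurable (fun x : Fin c → ℝ => y ⬝ᵥ x) := by
  unfold dotProduct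
  fun_prop

/-- the block set -/
def bl (A : Set (Fin a → ℝ)) (B : Set (Fin b → ℝ)) : Set (Fin (a + b) → ℝ) :=
  {x | p1 x ∈ A ∧ p2 x ∈ B}

theorem bl_meas {A : Set (Fin a → ℝ)} {B : Set (Fin b → ℝ)} (hA : MeasurableSet A)
    (hB : MeasurableSet B) : MeasurableSet (bl A B) := (p1_meas hA).inter (p2_meas hB)

/-- integrals over block sets -/
theorem bl_int (h1 : S_app) {A : Set (Fin a → ℝ)} {B : Set (Fin b → ℝ)} (hA : MeasurableSet A)
    (hB : MeasurableSet B) {f : (Fin a → ℝ) → ℝ≥0∞} {g : (Fin b → ℝ) → ℝ≥0∞}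
    (hf : Measurable f) (hg : Measurable g) :
    ∫⁻ x in bl A B, f (p1 x) * g (p2 x) = (∫⁻ x in A, f x) * ∫⁻ x in B, g x := by
  rw [← lintegral_indicator (bl_meas hA hB)]
  have hm : Measurable ((bl A B).indicator fun x => f (p1 x) * g (p2 x)) :=
    ((hf.comp p1_meas).mul (hg.comp p2_meas)).indicator (bl_meas hA hB)
  rw [h1 a b _ hm, ← lintegral_indicator hA, ← lintegral_indicator hB,
    ← lintegral_mul_const _ (hf.indicator hA)]
  refine lintegral_congr fun x1 => ?_
  rw [← lintegral_const_mul _ (hg.indicator hB)]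
  refine lintegral_congr fun x2 => ?_
  by_cases ha : x1 ∈ A
  · by_cases hb : x2 ∈ B
    · have : Fin.append x1 x2 ∈ bl A B := by
        refine ⟨?_, ?_⟩
        · rw [p1_app]; exact ha
        · rw [p2_app]; exact hb
      rw [indicator_of_mem this, indicator_of_mem ha, indicator_of_mem hb, p1_app, p2_app]
    · have : Fin.append x1 x2 ∉ bl A B := by
        rintro ⟨-, h⟩
        rw [p2_app] at h
        exact hb h
      rw [indicator_of_notMem this, indicator_of_notMem hb, mul_zero]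
  · have : Fin.append x1 x2 ∉ bl A B := by
      rintro ⟨h, -⟩
      rw [p1_app] at h
      exact ha h
    rw [indicator_of_notMem this, indicator_of_notMem ha, zero_mul]

theorem bl_vol (h1 : S_app) {A : Set (Fin a → ℝ)} {B : Set (Fin b → ℝ)} (hA : MeasurableSet A)
    (hB : MeasurableSet B) : volume (bl A B) = volume A * volume B := by
  have := bl_int h1 hA hB (f := fun _ => 1) (g := fun _ => 1) measurable_const measurable_const
  simpa using this

theorem bl_int1 (h1 : S_app) {A : Set (Fin a → ℝ)} {B : Set (Fin b → ℝ)} (hA : MeasurableSet A)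
    (hB : MeasurableSet B) {f : (Fin a → ℝ) → ℝ≥0∞} (hf : Measurable f) :
    ∫⁻ x in bl A B, f (p1 x) = (∫⁻ x in A, f x) * volume B := by
  have := bl_int h1 hA hB (f := f) (g := fun _ => 1) hf measurable_const
  simpa using this

theorem bl_int2 (h1 : S_app) {A : Set (Fin a → ℝ)} {B : Set (Fin b → ℝ)} (hA : MeasurableSet A)
    (hB : MeasurableSet B) {g : (Fin b → ℝ) → ℝ≥0∞} (hg : Measurable g) :
    ∫⁻ x in bl A B, g (p2 x) = volume A * ∫⁻ x in B, g x := by
  have := bl_int h1 hA hB (f := fun _ => 1) (g := g) measurable_const hg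
  simpa using this

end blocks

section frames

variable {n m : ℕ} {U V U' V' : Type}

theorem N_eq [Fintype U] {F : Fr n U V} (hF : Half F) (x : Fin n → ℝ) :
    F.N x = ⨆ a, F.u a ⬝ᵥ x := by
  have : Nonempty U := ⟨F.ft x⟩
  apply le_antisymm
  · rw [← hF.eq x]
    exact le_ciSup (f := fun a => F.u a ⬝ᵥ x) (Set.finite_range _).bddAbove (F.ft x)
  · exact ciSup_le fun a => hF.le a x

theorem N_meas [Fintype U] {F : Fr n U V} (hF : Half F) : Measurable F.N := by
  have : F.N = fun x => ⨆ a, F.u a ⬝ᵥ x := funext (N_eq hF)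
  rw [this]
  exact Measurable.iSup fun a => dot_meas' _

theorem N_smul {F : Fr n U V} (hF : Half F) {t : ℝ} (ht : 0 < t) (x : Fin n → ℝ) :
    F.N (t • x) = t * F.N x := by
  rw [← hF.eq (t • x), hF.smul t ht, dotProduct_smul, hF.eq, smul_eq_mul]

theorem N_zero {F : Fr n U V} (hF : Half F) : F.N 0 = 0 := by
  rw [← hF.eq 0, dotProduct_zero]

theorem N_nonneg {F : Fr n U V} (hF : Half F) (x : Fin n → ℝ) : 0 ≤ F.N x := by
  by_cases h : x = 0
  · rw [h, N_zero hF]
  · exact (hF.pos x h).le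

theorem h_meas [Fintype V] {F : Fr n U V} (hF : Good F) : Measurable F.h := N_meas hF.dhalf

theorem h_smul {F : Fr n U V} (hF : Good F) {t : ℝ} (ht : 0 < t) (x : Fin n → ℝ) :
    F.h (t • x) = t * F.h x := N_smul hF.dhalf ht x

theorem h_nonneg {F : Fr n U V} (hF : Good F) (x : Fin n → ℝ) : 0 ≤ F.h x := N_nonneg hF.dhalf x

theorem pol_meas [Fintype V] {F : Fr n U V} (hF : Good F) : MeasurableSet F.pol :=
  measurableSet_le (h_meas hF) measurable_const

theorem vol_pos {F : Fr n U V} (hF : Good F) : 0 < volume.real F.pol := by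
  have h := hF.vol
  have h2 : (0 : ℝ) < 4 ^ n / n.factorial := by positivity
  rw [← h] at h2
  have h3 : 0 ≤ volume.real F.pol := measureReal_nonneg
  rcases h3.eq_or_lt with h4 | h4
  · rw [← h4, mul_zero] at h2
    exact absurd h2 (lt_irrefl _)
  · exact h4

theorem vol_ne_top {F : Fr n U V} (hF : Good F) : volume F.pol ≠ ∞ := by
  intro h
  have := vol_pos hF
  unfold Measure.real at this
  rw [h] at this
  simp at this

theorem sum_pol (F : Fr n U V) (G : Fr m U' V') : (F.sum G).pol = bl F.pol G.pol := by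
  ext y
  show max (F.h (p1 y)) (G.h (p2 y)) ≤ 1 ↔ F.h (p1 y) ≤ 1 ∧ G.h (p2 y) ≤ 1
  exact max_le_iff

/-- the mass of a kernel -/
theorem mu_sum [Fintype U] {F : Fr n U V} {α : U → V → ℝ} {mu : (Fin n → ℝ) → U → ℝ}
    (hF : Good F) (hK : Ker F α mu) (y : Fin n → ℝ) : ∑ a, mu y a = F.h y := by
  have h1 : F.v (F.vt y) ⬝ᵥ y = F.h y := hF.dhalf.eq y
  rw [← h1]
  conv_rhs => rw [← hK.bary y]
  rw [dotProduct_sum]
  refine Finset.sum_congr rfl fun a _ => ?_
  rw [dotProduct_smul, dotProduct_comm, smul_eq_mul]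
  by_cases h : mu y a = 0
  · rw [hK.bary y, h, zero_mul]
  · rw [hK.bary y, hK.supp y a h, mul_one]

end frames

/-- convexity: a combination of minima is at most the minimum of the combinations -/
theorem comb_le {U U' : Type} [Fintype U] [Fintype U'] [Nonempty U] [Nonempty U']
    (w : U → ℝ) (hw : ∀ a, 0 ≤ w a) (c : U → U' → ℝ) (X : ℝ) (hX : ∑ a, w a = X) (d : U' → ℝ) :
    ∑ a, w a * (⨅ a', (c a a' - d a')) ≤ -(⨆ a', (X * d a' - ∑ a, w a * c a a')) := by
  rw [le_neg]
  refine ciSup_le fun a' => ?_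
  have h1 : ∑ a, w a * (⨅ a', (c a a' - d a')) ≤ ∑ a, w a * (c a a' - d a') := by
    refine Finset.sum_le_sum fun a _ => mul_le_mul_of_nonneg_left ?_ (hw a)
    exact ciInf_le (f := fun a' => c a a' - d a') (Set.finite_range _).bddBelow a'
  have h2 : ∑ a, w a * (c a a' - d a') = ∑ a, w a * c a a' - X * d a' := by
    rw [← hX, Finset.sum_mul, ← Finset.sum_sub_distrib]
    exact Finset.sum_congr rfl fun a _ => by ring
  linarith

/-- the supremum over pairs as a supremum -/
theorem sup_pair {U U' : Type} [Fintype U] [Fintype U'] [Nonempty U] [Nonempty U']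
    (c : U → U' → ℝ) (x : U → ℝ) (d : U' → ℝ) (S : ℝ) (hS : ∀ a a', x a + d a' - c a a' ≤ S) :
    ⨆ a, (x a - ⨅ a', (c a a' - d a')) ≤ S := by
  refine ciSup_le fun a => ?_
  obtain ⟨a', ha'⟩ := exists_eq_ciInf_of_finite (f := fun a' => c a a' - d a')
  rw [← ha']
  have := hS a a'
  linarith

end Pool.Agent.TH416.LP931
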