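import Pool.Agent.TH416.LP931.Rad

/-!
# LP931-C2 (job 2411, helper416 for helper931): the cone certificate of a sum
-/

set_option autoImplicit false

open MeasureTheory Set
open scoped ENNReal Matrix

noncomputable section

namespace Pool.Agent.TH416.LP931

open Pool.Agent.TH931.LP

section core

variable {n m : ℕ} {U V U' V' : Type} [Fintype U] [Fintype V] [Fintype U'] [Fintype V']

omit [Fintype V] [Fintype V'] in
/-- the certificate inequality in the region `G.h y2 < F.h y1` -/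
theorem qs_core {F : Fr n U V} {G : Fr m U' V'} {α : U → V → ℝ} {mu : (Fin n → ℝ) → U → ℝ}
    {LQ : (Fin n → ℝ) → ℝ} {Y : Set (Fin n → ℝ)} {qa : ℝ} {lam' : (Fin m → ℝ) → U' → ℝ}
    {LZ' : (Fin m → ℝ) → ℝ} {Z' : Set (Fin m → ℝ)} {g' : ℝ} (hF : Good F) (hK : Ker F α mu)
    (hQ : QC F mu LQ Y qa) (hZ' : ZC G lam' LZ' Z' g') {y1 : Fin n → ℝ} {y2 : Fin m → ℝ}
    (hX : 0 < F.h y1) (hy1 : y1 ∈ Y) (hy2 : (F.h y1)⁻¹ • y2 ∈ Z') (ψ : U → U' → ℝ) :
    ∫⁻ x2 : Fin m → ℝ, ∫⁻ x1 in {x1 : Fin n → ℝ | ∀ a, F.u a ⬝ᵥ F.v (F.vt y1) = 1 →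
        ∀ a', F.u a ⬝ᵥ x1 + G.u a' ⬝ᵥ x2 ≤ ψ a a'},
      ENNReal.ofReal (Real.exp (x1 ⬝ᵥ y1 + x2 ⬝ᵥ y2)) ≤
    ENNReal.ofReal (Real.exp (∑ a, ∑ a', mu y1 a * lam' ((F.h y1)⁻¹ • y2) a' * ψ a a' +
      (LQ y1 - m * Real.log (F.h y1) + LZ' ((F.h y1)⁻¹ • y2)))) := by
  have hU : Nonempty U := ⟨F.ft 0⟩
  have hU' : Nonempty U' := ⟨G.ft 0⟩
  set X := F.h y1 with hXd
  set T : U' → ℝ := fun a' => ∑ a, mu y1 a * ψ a a' with hT
  set φ : (Fin m → ℝ) → ℝ≥0∞ := fun z => ENNReal.ofReal (Real.exp (z ⬝ᵥ (X⁻¹ • y2) -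
    ⨆ a', (G.u a' ⬝ᵥ z - T a'))) with hφ
  have hφm : Measurable φ := by
    refine ENNReal.measurable_ofReal.comp (Real.measurable_exp.comp ?_)
    exact (dot_meas _).sub (Measurable.iSup fun a => (dot_meas' _).sub_const _)
  have hin : ∀ x2 : Fin m → ℝ, ∫⁻ x1 in {x1 : Fin n → ℝ | ∀ a, F.u a ⬝ᵥ F.v (F.vt y1) = 1 →
        ∀ a', F.u a ⬝ᵥ x1 + G.u a' ⬝ᵥ x2 ≤ ψ a a'},
      ENNReal.ofReal (Real.exp (x1 ⬝ᵥ y1 + x2 ⬝ᵥ y2)) ≤
      ENNReal.ofReal (Real.exp (LQ y1)) * φ (X • x2) := by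
    intro x2
    have hset : {x1 : Fin n → ℝ | ∀ a, F.u a ⬝ᵥ F.v (F.vt y1) = 1 →
        ∀ a', F.u a ⬝ᵥ x1 + G.u a' ⬝ᵥ x2 ≤ ψ a a'} =
        {x1 : Fin n → ℝ | ∀ a, F.u a ⬝ᵥ F.v (F.vt y1) = 1 →
          F.u a ⬝ᵥ x1 ≤ ⨅ a', (ψ a a' - G.u a' ⬝ᵥ x2)} := by
      ext x1
      refine forall_congr' fun a => forall_congr' fun _ => ?_
      rw [le_ciInf_iff (Set.finite_range _).bddBelow]
      refine forall_congr' fun a' => ?_
      constructor <;> intro h <;> linarith
    rw [hset]
    have e1 : ∀ x1 : Fin n → ℝ, ENNReal.ofReal (Real.exp (x1 ⬝ᵥ y1 + x2 ⬝ᵥ y2)) =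
        ENNReal.ofReal (Real.exp (x2 ⬝ᵥ y2)) * ENNReal.ofReal (Real.exp (x1 ⬝ᵥ y1)) := by
      intro x1
      rw [add_comm, ofReal_exp_add]
    simp only [e1]
    rw [lintegral_const_mul' _ _ ENNReal.ofReal_ne_top]
    have h2 := hQ.cert y1 hy1 (fun a => ⨅ a', (ψ a a' - G.u a' ⬝ᵥ x2))
    refine (mul_le_mul_right h2 _).trans ?_
    rw [hφ, ← ofReal_exp_add, ← ofReal_exp_add]
    refine ofReal_exp_mono ?_
    have h3 := comb_le (mu y1) (hK.nonneg y1) ψ X (mu_sum hF hK y1) (fun a' => G.u a' ⬝ᵥ x2)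
    have e2 : ∀ a', G.u a' ⬝ᵥ (X • x2) = X * (G.u a' ⬝ᵥ x2) := fun a' => by
      rw [dotProduct_smul, smul_eq_mul]
    have e3 : (X • x2) ⬝ᵥ (X⁻¹ • y2) = x2 ⬝ᵥ y2 := by
      rw [dotProduct_smul, smul_dotProduct, smul_eq_mul, smul_eq_mul, ← mul_assoc,
        inv_mul_cancel₀ hX.ne', one_mul]
    simp only [e2, e3, hT]
    linarith
  refine (lintegral_mono hin).trans ?_
  rw [lintegral_const_mul' _ _ ENNReal.ofReal_ne_top, scale_int hX hφm]
  have h2 := hZ'.cert (X⁻¹ • y2) hy2 T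
  refine (mul_le_mul_right (mul_le_mul_right h2 _) _).trans ?_
  have e4 : (X ^ m)⁻¹ = Real.exp (-(m * Real.log X)) := by
    rw [Real.exp_neg, mul_comm, Real.exp_mul, Real.exp_log hX, Real.rpow_natCast]
  rw [e4, ← ofReal_exp_add, ← ofReal_exp_add]
  refine ofReal_exp_mono (le_of_eq ?_)
  have e5 : ∑ a', lam' (X⁻¹ • y2) a' * T a' = ∑ a, ∑ a', mu y1 a * lam' (X⁻¹ • y2) a' * ψ a a' := by
    rw [Finset.sum_comm]
    refine Finset.sum_congr rfl fun a' _ => ?_
    rw [hT, Finset.mul_sum]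
    refine Finset.sum_congr rfl fun a _ => ?_
    ring
  rw [e5]
  ring

/-- the mean in the region `G.h y2 < F.h y1` -/
theorem qs_mean (h2 : S_rad) (h3 : S_beta) {F : Fr n U V} {G : Fr m U' V'}
    {mu : (Fin n → ℝ) → U → ℝ}
    {LQ : (Fin n → ℝ) → ℝ} {Y : Set (Fin n → ℝ)} {qa : ℝ} {lam' : (Fin m → ℝ) → U' → ℝ}
    {LZ' : (Fin m → ℝ) → ℝ} {Z' : Set (Fin m → ℝ)} {g' : ℝ} (hF : Good F) (hG : Good G)
    (hQ : QC F mu LQ Y qa) (hZ' : ZC G lam' LZ' Z' g') :
    ∫⁻ y1 in F.pol, ∫⁻ y2 in {y2 : Fin m → ℝ | G.h y2 < F.h y1},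
      ENNReal.ofReal (LQ y1 - m * Real.log (F.h y1) + LZ' ((F.h y1)⁻¹ • y2)) ≤
    ENNReal.ofReal ((n : ℝ) / (n + m) * (qa + g')) * (volume F.pol * volume G.pol) := by
  classical
  have hn := hF.n_pos
  -- the points of `Y` are not zero
  have hYpos : ∀ y ∈ Y, 0 < F.h y := by
    intro y hy
    rcases (h_nonneg hF y).eq_or_lt with h | h
    · exfalso
      have hy0 : y = 0 := by
        by_contra hne
        have h5 : 0 < F.h y := hF.dhalf.pos y hne
        linarith
      have h6 := hQ.smul (Real.exp 1) (Real.exp_pos 1) y hy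
      rw [hy0, smul_zero, Real.log_exp] at h6
      have : (0 : ℝ) < n := by exact_mod_cast hn
      linarith
    · exact h
  have hYsmul : ∀ t : ℝ, 0 < t → ∀ y, (t • y ∈ Y ↔ y ∈ Y) := by
    intro t ht y
    constructor
    · intro h
      have h5 := hQ.smulY t⁻¹ (inv_pos.2 ht) _ h
      rwa [smul_smul, inv_mul_cancel₀ ht.ne', one_smul] at h5
    · exact hQ.smulY t ht y
  -- the homogeneous part
  set Lh : (Fin n → ℝ) → ℝ≥0∞ := Y.indicator fun y => ENNReal.ofReal (LQ y + n * Real.log (F.h y))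
    with hLh
  have hLhm : Measurable Lh := by
    refine Measurable.indicator (ENNReal.measurable_ofReal.comp ?_) hQ.measY
    exact hQ.meas.add ((Real.measurable_log.comp (h_meas hF)).const_mul _)
  have hLh0 : ∀ t : ℝ, 0 < t → ∀ y, Lh (t • y) = Lh y := by
    intro t ht y
    by_cases hy : y ∈ Y
    · have hty := (hYsmul t ht y).2 hy
      rw [hLh, indicator_of_mem hty, indicator_of_mem hy, hQ.smul t ht y hy, h_smul hF ht,
        Real.log_mul ht.ne' (hYpos y hy).ne']
      congr 1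
      ring
    · have hty : t • y ∉ Y := fun h => hy ((hYsmul t ht y).1 h)
      rw [hLh, indicator_of_notMem hty, indicator_of_notMem hy]
  -- almost everywhere in `Y`
  have hYae : ∀ᵐ y ∂(volume.restrict F.pol), y ∈ Y := by
    refine ae_restrict_of_ae ?_
    rw [ae_iff]
    exact hQ.nullY
  -- the mean of the homogeneous part
  have hmean : (∫⁻ y in F.pol, Lh y) + volume F.pol ≤ ENNReal.ofReal qa * volume F.pol := by
    have e1 : ∫⁻ y in F.pol, ENNReal.ofReal (n * -Real.log (F.h y)) = volume F.pol := by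
      have h5 := rad_pol h2 hF (f := fun _ => 1) measurable_const (fun _ _ _ => rfl)
        (Ψ := fun r => ENNReal.ofReal (n * -Real.log r))
        (ENNReal.measurable_ofReal.comp ((Real.measurable_log.neg).const_mul _))
      have h6 := c_log h3 n 0 hn
      simp only [mul_one, pow_zero, one_mul, Nat.cast_zero, add_zero] at h5 h6
      rw [h5, h6, div_self (by exact_mod_cast hn.ne'), ENNReal.ofReal_one, one_mul]
      simp
    rw [← e1, ← lintegral_add_left hLhm, e1]
    refine le_trans (le_of_eq ?_) hQ.mean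
    refine setLIntegral_congr_fun_ae (pol_meas hF) ?_
    have hYae' : ∀ᵐ y : Fin n → ℝ, y ∈ Y := by
      rw [ae_iff]
      exact hQ.nullY
    filter_upwards [hYae'] with y hy hyp
    have hp := hYpos y hy
    have hp1 : F.h y ≤ 1 := hyp
    have hlog : Real.log (F.h y) ≤ 0 := Real.log_nonpos hp.le hp1
    have hnn : 0 ≤ LQ y + n * Real.log (F.h y) := by
      have h7 := hQ.smul (F.h y)⁻¹ (inv_pos.2 hp) y hy
      have h8 := hQ.nonneg _ (hQ.smulY _ (inv_pos.2 hp) y hy) (by
        rw [h_smul hF (inv_pos.2 hp), inv_mul_cancel₀ hp.ne'])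
      rw [h7, Real.log_inv] at h8
      linarith
    rw [hLh, indicator_of_mem hy, ← ENNReal.ofReal_add hnn
      (mul_nonneg (Nat.cast_nonneg _) (by linarith))]
    congr 1
    ring
  -- the inner integral
  have hin : ∀ᵐ y1 ∂(volume.restrict F.pol), ∫⁻ y2 in {y2 : Fin m → ℝ | G.h y2 < F.h y1},
      ENNReal.ofReal (LQ y1 - m * Real.log (F.h y1) + LZ' ((F.h y1)⁻¹ • y2)) ≤
      (ENNReal.ofReal (F.h y1 ^ m) * Lh y1 +
        (ENNReal.ofReal (F.h y1 ^ m * (((n : ℝ) + m) * -Real.log (F.h y1))) * 1 +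
        ENNReal.ofReal (F.h y1 ^ m) * ENNReal.ofReal g')) * volume G.pol := by
    filter_upwards [hYae, ae_restrict_mem (pol_meas hF)] with y1 hy hyp
    have hp := hYpos y1 hy
    have hp1 : F.h y1 ≤ 1 := hyp
    have hlog : Real.log (F.h y1) ≤ 0 := Real.log_nonpos hp.le hp1
    set X := F.h y1 with hX
    have hXm : (0 : ℝ) ≤ X ^ m := by positivity
    have hsub : {y2 : Fin m → ℝ | G.h y2 < X} ⊆ {y2 : Fin m → ℝ | X⁻¹ • y2 ∈ G.pol} := by
      intro y2 hy2
      show G.h (X⁻¹ • y2) ≤ 1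
      rw [h_smul hG (inv_pos.2 hp), inv_mul_le_iff₀ hp, mul_one]
      exact le_of_lt hy2
    have hmset : MeasurableSet {y2 : Fin m → ℝ | X⁻¹ • y2 ∈ G.pol} :=
      (measurable_const_smul X⁻¹) (pol_meas hG)
    have b1 : ∫⁻ y2 in {y2 : Fin m → ℝ | G.h y2 < X},
        ENNReal.ofReal (LQ y1 - m * Real.log X + LZ' (X⁻¹ • y2)) ≤
        ∫⁻ y2 in {y2 : Fin m → ℝ | X⁻¹ • y2 ∈ G.pol},
          (ENNReal.ofReal (LQ y1 - m * Real.log X) + ENNReal.ofReal (LZ' (X⁻¹ • y2))) :=
      (lintegral_mono_set hsub).trans (lintegral_mono fun y2 => ENNReal.ofReal_add_le)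
    have b2 : ∫⁻ y2 in {y2 : Fin m → ℝ | X⁻¹ • y2 ∈ G.pol},
          (ENNReal.ofReal (LQ y1 - m * Real.log X) + ENNReal.ofReal (LZ' (X⁻¹ • y2))) =
        ENNReal.ofReal (X ^ m) * ∫⁻ y2 in G.pol,
          (ENNReal.ofReal (LQ y1 - m * Real.log X) + ENNReal.ofReal (LZ' y2)) := by
      have hm2 : Measurable fun y2 : Fin m → ℝ =>
          ENNReal.ofReal (LQ y1 - m * Real.log X) + ENNReal.ofReal (LZ' y2) :=
        measurable_const.add (ENNReal.measurable_ofReal.comp hZ'.meas)
      rw [← lintegral_indicator hmset, ← lintegral_indicator (pol_meas hG)]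
      exact scale_int' hp (hm2.indicator (pol_meas hG))
    have b3 : ∫⁻ y2 in G.pol,
          (ENNReal.ofReal (LQ y1 - m * Real.log X) + ENNReal.ofReal (LZ' y2)) ≤
        (ENNReal.ofReal (LQ y1 - m * Real.log X) + ENNReal.ofReal g') * volume G.pol := by
      rw [lintegral_add_left measurable_const, add_mul]
      refine add_le_add (le_of_eq ?_) hZ'.mean
      simp
    have b4 : ENNReal.ofReal (LQ y1 - m * Real.log X) ≤
        Lh y1 + ENNReal.ofReal (((n : ℝ) + m) * -Real.log X) := by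
      rw [hLh, indicator_of_mem hy]
      refine le_trans (le_of_eq ?_) ENNReal.ofReal_add_le
      congr 1
      rw [← hX]
      ring
    rw [b2] at b1
    refine b1.trans ((mul_le_mul_right b3 _).trans ?_)
    rw [← mul_assoc]
    refine mul_le_mul_left ?_ _
    rw [mul_add, mul_one, ← add_assoc]
    refine add_le_add ?_ le_rfl
    refine (mul_le_mul_right b4 _).trans (le_of_eq ?_)
    rw [mul_add, ENNReal.ofReal_mul hXm]
  refine (lintegral_mono_ae hin).trans ?_
  have hm1 : Measurable fun y1 : Fin n → ℝ => ENNReal.ofReal (F.h y1 ^ m) * Lh y1 :=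
    (ENNReal.measurable_ofReal.comp ((h_meas hF).pow_const m)).mul hLhm
  have hm2 : Measurable fun y1 : Fin n → ℝ =>
      ENNReal.ofReal (F.h y1 ^ m * (((n : ℝ) + m) * -Real.log (F.h y1))) * 1 := by
    refine Measurable.mul_const (ENNReal.measurable_ofReal.comp ?_) _
    exact ((h_meas hF).pow_const m).mul
      ((Real.measurable_log.comp (h_meas hF)).neg.const_mul _)
  rw [lintegral_mul_const' _ _ (vol_ne_top hG), lintegral_add_left hm1,
    lintegral_add_left hm2]
  have r1 := rad_pol h2 hF hLhm hLh0 (Ψ := fun r => ENNReal.ofReal (r ^ m))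
    (ENNReal.measurable_ofReal.comp (measurable_id.pow_const m))
  have r2 := rad_pol h2 hF (f := fun _ => 1) measurable_const (fun _ _ _ => rfl)
    (Ψ := fun r => ENNReal.ofReal (r ^ m * (((n : ℝ) + m) * -Real.log r)))
    (ENNReal.measurable_ofReal.comp ((measurable_id.pow_const m).mul
      (Real.measurable_log.neg.const_mul _)))
  have r3 := rad_pol h2 hF (f := fun _ => ENNReal.ofReal g') measurable_const
    (fun _ _ _ => rfl) (Ψ := fun r => ENNReal.ofReal (r ^ m))
    (ENNReal.measurable_ofReal.comp (measurable_id.pow_const m))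
  rw [r1, r2, r3, c_one h3 n m hn, c_log h3 n m hn]
  have hr : (0 : ℝ) ≤ (n : ℝ) / (n + m) := by positivity
  rw [ENNReal.ofReal_mul hr, ENNReal.ofReal_add hQ.qa_nonneg hZ'.g_nonneg]
  simp only [lintegral_const, Measure.restrict_apply MeasurableSet.univ, univ_inter, one_mul]
  calc (ENNReal.ofReal ((n : ℝ) / (n + m)) * (∫⁻ y in F.pol, Lh y) +
        (ENNReal.ofReal ((n : ℝ) / (n + m)) * volume F.pol +
        ENNReal.ofReal ((n : ℝ) / (n + m)) * (ENNReal.ofReal g' * volume F.pol))) * volume G.pol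
      = ENNReal.ofReal ((n : ℝ) / (n + m)) * (((∫⁻ y in F.pol, Lh y) + volume F.pol) +
        ENNReal.ofReal g' * volume F.pol) * volume G.pol := by ring
    _ ≤ ENNReal.ofReal ((n : ℝ) / (n + m)) * (ENNReal.ofReal qa * volume F.pol +
        ENNReal.ofReal g' * volume F.pol) * volume G.pol := by gcongr
    _ = _ := by ring

end core

theorem qsum (h1 : S_app) (h2 : S_rad) (h3 : S_beta) (_h4 : S_gprod) : S_qsum := by
  intro n m U V U' V' _ _ _ _ F G α α' mu mu' LQ LQ' Y Y' qa qa' lam lam' LZ LZ' Z Z' g g'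
    hF hG hK hK' hQ hQ' hB hB' hZ hZ'
  have hU : Nonempty U := ⟨F.ft 0⟩
  have hU' : Nonempty U' := ⟨G.ft 0⟩
  have hpol : (F.sum G).pol = bl F.pol G.pol := sum_pol F G
  have hn := hF.n_pos
  have hm := hG.n_pos
  have mF : Measurable fun y : Fin (n + m) → ℝ => F.h (p1 y) := (h_meas hF).comp p1_meas
  have mG : Measurable fun y : Fin (n + m) → ℝ => G.h (p2 y) := (h_meas hG).comp p2_meas
  have mA : Measurable fun y : Fin (n + m) → ℝ => (F.h (p1 y))⁻¹ • p2 y :=
    (measurable_inv.comp mF).smul p2_meas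
  have mB : Measurable fun y : Fin (n + m) → ℝ => (G.h (p2 y))⁻¹ • p1 y :=
    (measurable_inv.comp mG).smul p1_meas
  set W1 : Set (Fin (n + m) → ℝ) := {y | G.h (p2 y) < F.h (p1 y) ∧ p1 y ∈ Y ∧
    (F.h (p1 y))⁻¹ • p2 y ∈ Z'} with hW1
  set W2 : Set (Fin (n + m) → ℝ) := {y | F.h (p1 y) < G.h (p2 y) ∧ p2 y ∈ Y' ∧
    (G.h (p2 y))⁻¹ • p1 y ∈ Z} with hW2
  have mW1 : MeasurableSet W1 :=
    (measurableSet_lt mG mF).inter ((p1_meas hQ.measY).inter (mA hZ'.measZ))
  have mW2 : MeasurableSet W2 :=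
    (measurableSet_lt mF mG).inter ((p2_meas hQ'.measY).inter (mB hZ.measZ))
  refine ⟨W1 ∪ W2, mW1.union mW2, ?_, ?_, ?_, ?_, ?_, ?_, ?_, ?_⟩
  · -- the complement is a null set
    have hsub : (W1 ∪ W2)ᶜ ⊆ {y | F.h (p1 y) = G.h (p2 y)} ∪ (bl Yᶜ univ ∪ (bl univ Y'ᶜ ∪
        ({y | G.h (p2 y) < F.h (p1 y) ∧ (F.h (p1 y))⁻¹ • p2 y ∉ Z'} ∪
          {y | F.h (p1 y) < G.h (p2 y) ∧ (G.h (p2 y))⁻¹ • p1 y ∉ Z}))) := by
      intro y hy
      by_contra hc
      simp only [mem_union, not_or] at hc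
      obtain ⟨c1, c2, c3, c4, c5⟩ := hc
      apply hy
      have d2 : p1 y ∈ Y := by
        by_contra h
        exact c2 ⟨h, mem_univ _⟩
      have d3 : p2 y ∈ Y' := by
        by_contra h
        exact c3 ⟨mem_univ _, h⟩
      rcases lt_trichotomy (F.h (p1 y)) (G.h (p2 y)) with h | h | h
      · right
        refine ⟨h, d3, ?_⟩
        by_contra h'
        exact c5 ⟨h, h'⟩
      · exact absurd h c1
      · left
        refine ⟨h, d2, ?_⟩
        by_contra h'
        exact c4 ⟨h, h'⟩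
    refine measure_mono_null hsub (measure_union_null ?_ (measure_union_null ?_
      (measure_union_null ?_ (measure_union_null ?_ ?_))))
    · refine null_sec h1 (measurableSet_eq_fun mF mG) fun x1 => ?_
      have : {x2 : Fin m → ℝ | Fin.append x1 x2 ∈ {y : Fin (n + m) → ℝ | F.h (p1 y) =
          G.h (p2 y)}} = {x2 | G.h x2 = F.h x1} := by
        ext x2
        show F.h (p1 (Fin.append x1 x2)) = G.h (p2 (Fin.append x1 x2)) ↔ _
        rw [p1_app, p2_app]
        exact eq_comm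
      rw [this]
      exact sph_null h2 hG _
    · rw [bl_vol h1 hQ.measY.compl MeasurableSet.univ, hQ.nullY, zero_mul]
    · rw [bl_vol h1 MeasurableSet.univ hQ'.measY.compl, hQ'.nullY, mul_zero]
    · refine null_sec h1 ((measurableSet_lt mG mF).inter (mA hZ'.measZ).compl) fun x1 => ?_
      rcases (h_nonneg hF x1).eq_or_lt with h0 | h0
      · have : {x2 : Fin m → ℝ | Fin.append x1 x2 ∈ {y : Fin (n + m) → ℝ |
            G.h (p2 y) < F.h (p1 y) ∧ (F.h (p1 y))⁻¹ • p2 y ∉ Z'}} = ∅ := by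
          refine eq_empty_of_forall_notMem fun x2 hx2 => ?_
          have h5 : G.h (p2 (Fin.append x1 x2)) < F.h (p1 (Fin.append x1 x2)) := hx2.1
          rw [p1_app, p2_app, ← h0] at h5
          exact absurd h5 (not_lt.2 (h_nonneg hG x2))
        rw [this, measure_empty]
      · have hsub2 : {x2 : Fin m → ℝ | Fin.append x1 x2 ∈ {y : Fin (n + m) → ℝ |
            G.h (p2 y) < F.h (p1 y) ∧ (F.h (p1 y))⁻¹ • p2 y ∉ Z'}} ⊆
            (fun x2 : Fin m → ℝ => (F.h x1)⁻¹ • x2) ⁻¹' (G.pol \ Z') := by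
          intro x2 hx2
          obtain ⟨h5, h6⟩ := hx2
          rw [p1_app, p2_app] at h5 h6
          refine ⟨?_, h6⟩
          show G.h ((F.h x1)⁻¹ • x2) ≤ 1
          rw [h_smul hG (inv_pos.2 h0), inv_mul_le_iff₀ h0, mul_one]
          exact h5.le
        refine measure_mono_null hsub2 ?_
        rw [Measure.addHaar_preimage_smul _ (inv_pos.2 h0).ne', hZ'.nullZ, mul_zero]
    · refine null_sec' h1 ((measurableSet_lt mF mG).inter (mB hZ.measZ).compl) fun x2 => ?_
      rcases (h_nonneg hG x2).eq_or_lt with h0 | h0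
      · have : {x1 : Fin n → ℝ | Fin.append x1 x2 ∈ {y : Fin (n + m) → ℝ |
            F.h (p1 y) < G.h (p2 y) ∧ (G.h (p2 y))⁻¹ • p1 y ∉ Z}} = ∅ := by
          refine eq_empty_of_forall_notMem fun x1 hx1 => ?_
          have h5 : F.h (p1 (Fin.append x1 x2)) < G.h (p2 (Fin.append x1 x2)) := hx1.1
          rw [p1_app, p2_app, ← h0] at h5
          exact absurd h5 (not_lt.2 (h_nonneg hF x1))
        rw [this, measure_empty]
      · have hsub2 : {x1 : Fin n → ℝ | Fin.append x1 x2 ∈ {y : Fin (n + m) → ℝ |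
            F.h (p1 y) < G.h (p2 y) ∧ (G.h (p2 y))⁻¹ • p1 y ∉ Z}} ⊆
            (fun x1 : Fin n → ℝ => (G.h x2)⁻¹ • x1) ⁻¹' (F.pol \ Z) := by
          intro x1 hx1
          obtain ⟨h5, h6⟩ := hx1
          rw [p1_app, p2_app] at h5 h6
          refine ⟨?_, h6⟩
          show F.h ((G.h x2)⁻¹ • x1) ≤ 1
          rw [h_smul hF (inv_pos.2 h0), inv_mul_le_iff₀ h0, mul_one]
          exact h5.le
        refine measure_mono_null hsub2 ?_
        rw [Measure.addHaar_preimage_smul _ (inv_pos.2 h0).ne', hZ.nullZ, mul_zero]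
  · -- homogeneous
    rintro t ht y (⟨c1, c2, c3⟩ | ⟨c1, c2, c3⟩)
    · left
      refine ⟨?_, hQ.smulY t ht _ c2, ?_⟩
      · show G.h (t • p2 y) < F.h (t • p1 y)
        rw [h_smul hG ht, h_smul hF ht]
        exact mul_lt_mul_of_pos_left c1 ht
      · show (F.h (t • p1 y))⁻¹ • (t • p2 y) ∈ Z'
        rw [h_smul hF ht, smul_smul, mul_inv, mul_comm, mul_inv_cancel_left₀ ht.ne']
        exact c3
    · right
      refine ⟨?_, hQ'.smulY t ht _ c2, ?_⟩
      · show F.h (t • p1 y) < G.h (t • p2 y)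
        rw [h_smul hG ht, h_smul hF ht]
        exact mul_lt_mul_of_pos_left c1 ht
      · show (G.h (t • p2 y))⁻¹ • (t • p1 y) ∈ Z
        rw [h_smul hG ht, smul_smul, mul_inv, mul_comm, mul_inv_cancel_left₀ ht.ne']
        exact c3
  · -- measurable
    refine Measurable.ite (measurableSet_le mG mF) ?_ ?_
    · exact ((hQ.meas.comp p1_meas).sub ((Real.measurable_log.comp mF).const_mul _)).add
        (hZ'.meas.comp mA)
    · exact ((hQ'.meas.comp p2_meas).sub ((Real.measurable_log.comp mG).const_mul _)).add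
        (hZ.meas.comp mB)
  · -- scaling
    rintro t ht y (⟨c1, c2, c3⟩ | ⟨c1, c2, c3⟩)
    · have hX : 0 < F.h (p1 y) := lt_of_le_of_lt (h_nonneg hG _) c1
      unfold LQS
      rw [p1_smul, p2_smul, h_smul hF ht, h_smul hG ht,
        if_pos (mul_le_mul_of_nonneg_left c1.le ht.le), if_pos c1.le, hQ.smul t ht _ c2,
        Real.log_mul ht.ne' hX.ne', smul_smul, mul_inv, mul_comm t⁻¹, mul_assoc,
        inv_mul_cancel₀ ht.ne', mul_one]
      push_cast
      ring
    · have hX : 0 < G.h (p2 y) := lt_of_le_of_lt (h_nonneg hF _) c1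
      unfold LQS
      rw [p1_smul, p2_smul, h_smul hF ht, h_smul hG ht,
        if_neg (not_le.2 (mul_lt_mul_of_pos_left c1 ht)), if_neg (not_le.2 c1),
        hQ'.smul t ht _ c2,
        Real.log_mul ht.ne' hX.ne', smul_smul, mul_inv, mul_comm t⁻¹, mul_assoc,
        inv_mul_cancel₀ ht.ne', mul_one]
      push_cast
      ring
  · -- nonnegative
    rintro y (⟨c1, c2, c3⟩ | ⟨c1, c2, c3⟩) hy
    · have hX : 0 < F.h (p1 y) := lt_of_le_of_lt (h_nonneg hG _) c1
      have hy1 : F.h (p1 y) ≤ 1 := (le_max_left _ _).trans hy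
      have e1 := hQ.nonneg _ c2 hy1
      have e2 := hZ'.nonneg _ c3
      have e3 : Real.log (F.h (p1 y)) ≤ 0 := Real.log_nonpos hX.le hy1
      have e4 : (m : ℝ) * Real.log (F.h (p1 y)) ≤ 0 :=
        mul_nonpos_of_nonneg_of_nonpos (Nat.cast_nonneg _) e3
      unfold LQS
      rw [if_pos c1.le]
      linarith
    · have hX : 0 < G.h (p2 y) := lt_of_le_of_lt (h_nonneg hF _) c1
      have hy1 : G.h (p2 y) ≤ 1 := (le_max_right _ _).trans hy
      have e1 := hQ'.nonneg _ c2 hy1
      have e2 := hZ.nonneg _ c3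
      have e3 : Real.log (G.h (p2 y)) ≤ 0 := Real.log_nonpos hX.le hy1
      have e4 : (n : ℝ) * Real.log (G.h (p2 y)) ≤ 0 :=
        mul_nonpos_of_nonneg_of_nonpos (Nat.cast_nonneg _) e3
      unfold LQS
      rw [if_neg (not_le.2 c1)]
      linarith
  · -- the certificate
    intro y hy ψ
    set S : Set (Fin (n + m) → ℝ) := {x | ∀ a, (F.sum G).u a ⬝ᵥ (F.sum G).v ((F.sum G).vt y) = 1 →
      (F.sum G).u a ⬝ᵥ x ≤ ψ a} with hS
    have hSm : MeasurableSet S := by
      have : S = ⋂ a, {x | (F.sum G).u a ⬝ᵥ (F.sum G).v ((F.sum G).vt y) = 1 →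
        (F.sum G).u a ⬝ᵥ x ≤ ψ a} := by
        ext x; simp [hS]
      rw [this]
      refine MeasurableSet.iInter fun a => ?_
      by_cases h : (F.sum G).u a ⬝ᵥ (F.sum G).v ((F.sum G).vt y) = 1
      · simp only [h, forall_true_left]
        exact measurableSet_le (dot_meas' _) measurable_const
      · simp [h]
    have hfm : Measurable (S.indicator fun x => ENNReal.ofReal (Real.exp (x ⬝ᵥ y))) :=
      (ENNReal.measurable_ofReal.comp (Real.measurable_exp.comp (dot_meas y))).indicator hSm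
    have hux : ∀ (a : U × U') (x1 : Fin n → ℝ) (x2 : Fin m → ℝ),
        (F.sum G).u a ⬝ᵥ Fin.append x1 x2 = F.u a.1 ⬝ᵥ x1 + G.u a.2 ⬝ᵥ x2 := by
      intro a x1 x2
      show Fin.append (F.u a.1) (G.u a.2) ⬝ᵥ Fin.append x1 x2 = _
      rw [dot_app, p1_app, p2_app]
    rw [← lintegral_indicator hSm]
    rcases hy with ⟨c1, c2, c3⟩ | ⟨c1, c2, c3⟩
    · have hX : 0 < F.h (p1 y) := lt_of_le_of_lt (h_nonneg hG _) c1
      have hv : (F.sum G).v ((F.sum G).vt y) = Fin.append (F.v (F.vt (p1 y))) 0 := by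
        show Sum.elim (fun b => Fin.append (F.v b) 0) (fun b' => Fin.append 0 (G.v b'))
          (if G.h (p2 y) ≤ F.h (p1 y) then Sum.inl (F.vt (p1 y)) else Sum.inr (G.vt (p2 y))) = _
        rw [if_pos c1.le]
        rfl
      have hmem : ∀ (x1 : Fin n → ℝ) (x2 : Fin m → ℝ), (Fin.append x1 x2 ∈ S ↔
          x1 ∈ {x1 : Fin n → ℝ | ∀ a, F.u a ⬝ᵥ F.v (F.vt (p1 y)) = 1 →
            ∀ a', F.u a ⬝ᵥ x1 + G.u a' ⬝ᵥ x2 ≤ ψ (a, a')}) := by
        intro x1 x2
        show (∀ a : U × U', _ → _) ↔ _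
        rw [hv]
        constructor
        · intro h a ha a'
          have := h (a, a') (by rw [hux, dotProduct_zero, add_zero]; exact ha)
          rwa [hux] at this
        · intro h a ha
          rw [hux, dotProduct_zero, add_zero] at ha
          rw [hux]
          exact h a.1 ha a.2
      have key := qs_core hF hK hQ hZ' hX c2 c3 (fun a a' => ψ (a, a'))
      rw [app_swap h1 hfm]
      refine le_trans (le_of_eq ?_) (key.trans (ofReal_exp_mono (le_of_eq ?_)))
      · refine lintegral_congr fun x2 => ?_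
        have hm' : MeasurableSet {x1 : Fin n → ℝ | ∀ a, F.u a ⬝ᵥ F.v (F.vt (p1 y)) = 1 →
            ∀ a', F.u a ⬝ᵥ x1 + G.u a' ⬝ᵥ x2 ≤ ψ (a, a')} := by
          have h5 : MeasurableSet {x1 : Fin n → ℝ | Fin.append x1 x2 ∈ S} :=
            (app_meas.comp (measurable_id.prodMk measurable_const)) hSm
          have h6 : {x1 : Fin n → ℝ | Fin.append x1 x2 ∈ S} = {x1 : Fin n → ℝ |
            ∀ a, F.u a ⬝ᵥ F.v (F.vt (p1 y)) = 1 →
            ∀ a', F.u a ⬝ᵥ x1 + G.u a' ⬝ᵥ x2 ≤ ψ (a, a')} := by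
            ext x1
            exact hmem x1 x2
          rwa [h6] at h5
        rw [← lintegral_indicator hm']
        refine lintegral_congr fun x1 => ?_
        by_cases hx : Fin.append x1 x2 ∈ S
        · rw [indicator_of_mem hx, indicator_of_mem ((hmem x1 x2).1 hx), dot_app]
        · rw [indicator_of_notMem hx, indicator_of_notMem fun h => hx ((hmem x1 x2).2 h)]
      · unfold muS LQS
        rw [if_pos c1.le, Fintype.sum_prod_type]
        simp only [if_pos c1.le]
    · have hX : 0 < G.h (p2 y) := lt_of_le_of_lt (h_nonneg hF _) c1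
      have hv : (F.sum G).v ((F.sum G).vt y) = Fin.append 0 (G.v (G.vt (p2 y))) := by
        show Sum.elim (fun b => Fin.append (F.v b) 0) (fun b' => Fin.append 0 (G.v b'))
          (if G.h (p2 y) ≤ F.h (p1 y) then Sum.inl (F.vt (p1 y)) else Sum.inr (G.vt (p2 y))) = _
        rw [if_neg (not_le.2 c1)]
        rfl
      have hmem : ∀ (x1 : Fin n → ℝ) (x2 : Fin m → ℝ), (Fin.append x1 x2 ∈ S ↔
          x2 ∈ {x2 : Fin m → ℝ | ∀ a', G.u a' ⬝ᵥ G.v (G.vt (p2 y)) = 1 →
            ∀ a, G.u a' ⬝ᵥ x2 + F.u a ⬝ᵥ x1 ≤ ψ (a, a')}) := by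
        intro x1 x2
        show (∀ a : U × U', _ → _) ↔ _
        rw [hv]
        constructor
        · intro h a' ha' a
          have := h (a, a') (by rw [hux, dotProduct_zero, zero_add]; exact ha')
          rw [hux] at this
          rwa [add_comm]
        · intro h a ha
          rw [hux, dotProduct_zero, zero_add] at ha
          rw [hux, add_comm]
          exact h a.2 ha a.1
      have key := qs_core hG hK' hQ' hZ hX c2 c3 (fun a' a => ψ (a, a'))
      rw [h1 n m _ hfm]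
      refine le_trans (le_of_eq ?_) (key.trans (ofReal_exp_mono (le_of_eq ?_)))
      · refine lintegral_congr fun x1 => ?_
        have hm' : MeasurableSet {x2 : Fin m → ℝ | ∀ a', G.u a' ⬝ᵥ G.v (G.vt (p2 y)) = 1 →
            ∀ a, G.u a' ⬝ᵥ x2 + F.u a ⬝ᵥ x1 ≤ ψ (a, a')} := by
          have h5 : MeasurableSet {x2 : Fin m → ℝ | Fin.append x1 x2 ∈ S} :=
            (app_meas.comp (measurable_const.prodMk measurable_id)) hSm
          have h6 : {x2 : Fin m → ℝ | Fin.append x1 x2 ∈ S} = {x2 : Fin m → ℝ |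
            ∀ a', G.u a' ⬝ᵥ G.v (G.vt (p2 y)) = 1 →
            ∀ a, G.u a' ⬝ᵥ x2 + F.u a ⬝ᵥ x1 ≤ ψ (a, a')} := by
            ext x2
            exact hmem x1 x2
          rwa [h6] at h5
        rw [← lintegral_indicator hm']
        refine lintegral_congr fun x2 => ?_
        by_cases hx : Fin.append x1 x2 ∈ S
        · rw [indicator_of_mem hx, indicator_of_mem ((hmem x1 x2).1 hx), dot_app, add_comm]
        · rw [indicator_of_notMem hx, indicator_of_notMem fun h => hx ((hmem x1 x2).2 h)]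
      · unfold muS LQS
        rw [if_neg (not_le.2 c1), Fintype.sum_prod_type, Finset.sum_comm]
        simp only [if_neg (not_le.2 c1)]
  · -- nonnegative constant
    have := hQ.qa_nonneg
    have := hQ'.qa_nonneg
    have := hZ.g_nonneg
    have := hZ'.g_nonneg
    positivity
  · -- the mean
    rw [hpol]
    have hpm : MeasurableSet (bl F.pol G.pol) := bl_meas (pol_meas hF) (pol_meas hG)
    set R1 : Set (Fin (n + m) → ℝ) := {y | G.h (p2 y) < F.h (p1 y)} with hR1
    set R2 : Set (Fin (n + m) → ℝ) := {y | F.h (p1 y) < G.h (p2 y)} with hR2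
    have mR1 : MeasurableSet R1 := measurableSet_lt mG mF
    have mR2 : MeasurableSet R2 := measurableSet_lt mF mG
    have hnull : volume {y : Fin (n + m) → ℝ | F.h (p1 y) = G.h (p2 y)} = 0 := by
      refine null_sec h1 (measurableSet_eq_fun mF mG) fun x1 => ?_
      have : {x2 : Fin m → ℝ | Fin.append x1 x2 ∈ {y : Fin (n + m) → ℝ | F.h (p1 y) =
          G.h (p2 y)}} = {x2 | G.h x2 = F.h x1} := by
        ext x2
        show F.h (p1 (Fin.append x1 x2)) = G.h (p2 (Fin.append x1 x2)) ↔ _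
        rw [p1_app, p2_app]
        exact eq_comm
      rw [this]
      exact sph_null h2 hG _
    set LL : (Fin (n + m) → ℝ) → ℝ≥0∞ := fun y => ENNReal.ofReal (LQS F G LQ LQ' LZ LZ' y)
      with hLL
    have mLL : Measurable LL := by
      refine ENNReal.measurable_ofReal.comp (Measurable.ite (measurableSet_le mG mF) ?_ ?_)
      · exact ((hQ.meas.comp p1_meas).sub ((Real.measurable_log.comp mF).const_mul _)).add
          (hZ'.meas.comp mA)
      · exact ((hQ'.meas.comp p2_meas).sub ((Real.measurable_log.comp mG).const_mul _)).add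
          (hZ.meas.comp mB)
    have hsplit : ∫⁻ y in bl F.pol G.pol, LL y ≤
        (∫⁻ y in bl F.pol G.pol ∩ R1, LL y) + ∫⁻ y in bl F.pol G.pol ∩ R2, LL y := by
      have hsub : bl F.pol G.pol ⊆ (bl F.pol G.pol ∩ R1) ∪ ((bl F.pol G.pol ∩ R2) ∪
          {y | F.h (p1 y) = G.h (p2 y)}) := by
        intro y hy
        rcases lt_trichotomy (F.h (p1 y)) (G.h (p2 y)) with h | h | h
        · right; left; exact ⟨hy, h⟩
        · right; right; exact h
        · left; exact ⟨hy, h⟩
      refine (lintegral_mono_set hsub).trans ((lintegral_union_le _ _ _).trans ?_)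
      refine add_le_add le_rfl ((lintegral_union_le _ _ _).trans ?_)
      have : ∫⁻ y in {y : Fin (n + m) → ℝ | F.h (p1 y) = G.h (p2 y)}, LL y = 0 :=
        setLIntegral_measure_zero _ _ hnull
      rw [this, add_zero]
    have hb1 : ∫⁻ y in bl F.pol G.pol ∩ R1, LL y ≤
        ENNReal.ofReal ((n : ℝ) / (n + m) * (qa + g')) * (volume F.pol * volume G.pol) := by
      refine le_trans ?_ (qs_mean h2 h3 hF hG hQ hZ')
      rw [← lintegral_indicator (hpm.inter mR1), h1 n m _ (mLL.indicator (hpm.inter mR1)),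
        ← lintegral_indicator (pol_meas hF)]
      refine lintegral_mono fun x1 => ?_
      by_cases hx1 : x1 ∈ F.pol
      · rw [indicator_of_mem hx1]
        have hm' : MeasurableSet {y2 : Fin m → ℝ | G.h y2 < F.h x1} :=
          measurableSet_lt (h_meas hG) measurable_const
        rw [← lintegral_indicator hm']
        refine lintegral_mono fun x2 => ?_
        by_cases hx : Fin.append x1 x2 ∈ bl F.pol G.pol ∩ R1
        · have h5 : G.h x2 < F.h x1 := by
            have := hx.2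
            rw [hR1, mem_ofPred_eq, p1_app, p2_app] at this
            exact this
          rw [indicator_of_mem hx, indicator_of_mem (show x2 ∈ {y2 | G.h y2 < F.h x1} from h5),
            hLL]
          unfold LQS
          simp only [p1_app, p2_app, if_pos h5.le]
          exact le_rfl
        · rw [indicator_of_notMem hx]
          exact zero_le
      · rw [indicator_of_notMem hx1]
        have h0 : ∀ x2 : Fin m → ℝ,
            (bl F.pol G.pol ∩ R1).indicator LL (Fin.append x1 x2) = 0 := by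
          intro x2
          refine indicator_of_notMem ?_ _
          rintro ⟨⟨h5, -⟩, -⟩
          rw [p1_app] at h5
          exact hx1 h5
        simp only [h0, lintegral_zero, le_refl]
    have hb2 : ∫⁻ y in bl F.pol G.pol ∩ R2, LL y ≤
        ENNReal.ofReal ((m : ℝ) / (m + n) * (qa' + g)) * (volume G.pol * volume F.pol) := by
      refine le_trans ?_ (qs_mean h2 h3 hG hF hQ' hZ)
      rw [← lintegral_indicator (hpm.inter mR2), app_swap h1 (mLL.indicator (hpm.inter mR2)),
        ← lintegral_indicator (pol_meas hG)]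
      refine lintegral_mono fun x2 => ?_
      by_cases hx2 : x2 ∈ G.pol
      · rw [indicator_of_mem hx2]
        have hm' : MeasurableSet {y1 : Fin n → ℝ | F.h y1 < G.h x2} :=
          measurableSet_lt (h_meas hF) measurable_const
        rw [← lintegral_indicator hm']
        refine lintegral_mono fun x1 => ?_
        by_cases hx : Fin.append x1 x2 ∈ bl F.pol G.pol ∩ R2
        · have h5 : F.h x1 < G.h x2 := by
            have := hx.2
            rw [hR2, mem_ofPred_eq, p1_app, p2_app] at this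
            exact this
          rw [indicator_of_mem hx, indicator_of_mem (show x1 ∈ {y1 | F.h y1 < G.h x2} from h5),
            hLL]
          unfold LQS
          simp only [p1_app, p2_app, if_neg (not_le.2 h5)]
          exact le_rfl
        · rw [indicator_of_notMem hx]
          exact zero_le
      · rw [indicator_of_notMem hx2]
        have h0 : ∀ x1 : Fin n → ℝ,
            (bl F.pol G.pol ∩ R2).indicator LL (Fin.append x1 x2) = 0 := by
          intro x1
          refine indicator_of_notMem ?_ _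
          rintro ⟨⟨-, h5⟩, -⟩
          rw [p2_app] at h5
          exact hx2 h5
        simp only [h0, lintegral_zero, le_refl]
    refine hsplit.trans ((add_le_add hb1 hb2).trans (le_of_eq ?_))
    have q1 := hQ.qa_nonneg
    have q2 := hQ'.qa_nonneg
    have q3 := hZ.g_nonneg
    have q4 := hZ'.g_nonneg
    rw [bl_vol h1 (pol_meas hF) (pol_meas hG), ENNReal.ofReal_add (by positivity) (by positivity),
      add_mul, mul_comm (volume G.pol), add_comm (m : ℝ) n]

end Pool.Agent.TH416.LP931
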