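import Pool.Agent.TH416.LP931.ZSum

/-!
# LP931 (helper416 for helper931): radial integration on frames, null sets, scaling
-/

set_option autoImplicit false

open MeasureTheory Set
open scoped ENNReal Matrix

noncomputable section

namespace Pool.Agent.TH416.LP931

open Pool.Agent.TH931.LP

/-- Fubini in the other order -/
theorem app_swap (h1 : S_app) {a b : ℕ} {f : (Fin (a + b) → ℝ) → ℝ≥0∞} (hf : Measurable f) :
    ∫⁻ x, f x = ∫⁻ x2 : Fin b → ℝ, ∫⁻ x1 : Fin a → ℝ, f (Fin.append x1 x2) := by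
  rw [h1 a b f hf]
  exact lintegral_lintegral_swap (hf.comp app_meas).aemeasurable

theorem null_sec (h1 : S_app) {a b : ℕ} {S : Set (Fin (a + b) → ℝ)} (hS : MeasurableSet S)
    (h : ∀ x1 : Fin a → ℝ, volume {x2 : Fin b → ℝ | Fin.append x1 x2 ∈ S} = 0) :
    volume S = 0 := by
  rw [← lintegral_indicator_one hS, h1 a b _ (measurable_one.indicator hS)]
  have : ∀ x1 : Fin a → ℝ, ∫⁻ x2 : Fin b → ℝ, S.indicator 1 (Fin.append x1 x2) = 0 := by
    intro x1
    have hm : MeasurableSet {x2 : Fin b → ℝ | Fin.append x1 x2 ∈ S} :=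
      (app_meas.comp (measurable_const.prodMk measurable_id)) hS
    have h2 := lintegral_indicator_one (μ := (volume : Measure (Fin b → ℝ))) hm
    rw [h x1] at h2
    exact h2
  simp [this]

theorem null_sec' (h1 : S_app) {a b : ℕ} {S : Set (Fin (a + b) → ℝ)} (hS : MeasurableSet S)
    (h : ∀ x2 : Fin b → ℝ, volume {x1 : Fin a → ℝ | Fin.append x1 x2 ∈ S} = 0) :
    volume S = 0 := by
  rw [← lintegral_indicator_one hS, app_swap h1 (measurable_one.indicator hS)]
  have : ∀ x2 : Fin b → ℝ, ∫⁻ x1 : Fin a → ℝ, S.indicator 1 (Fin.append x1 x2) = 0 := by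
    intro x2
    have hm : MeasurableSet {x1 : Fin a → ℝ | Fin.append x1 x2 ∈ S} :=
      (app_meas.comp (measurable_id.prodMk measurable_const)) hS
    have h2 := lintegral_indicator_one (μ := (volume : Measure (Fin a → ℝ))) hm
    rw [h x2] at h2
    exact h2
  simp [this]

/-- scaling -/
theorem scale_int {m : ℕ} {X : ℝ} (hX : 0 < X) {φ : (Fin m → ℝ) → ℝ≥0∞} (hφ : Measurable φ) :
    ∫⁻ x, φ (X • x) = ENNReal.ofReal ((X ^ m)⁻¹) * ∫⁻ x, φ x := by
  have h := Measure.map_addHaar_smul (volume : Measure (Fin m → ℝ)) hX.ne'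
  have h2 : ∫⁻ x, φ (X • x) = ∫⁻ x, φ x ∂(Measure.map (X • ·) volume) :=
    (lintegral_map hφ (measurable_const_smul X)).symm
  rw [h2, h, lintegral_smul_measure, Module.finrank_fin_fun, abs_of_pos (by positivity)]
  rfl

theorem scale_int' {m : ℕ} {X : ℝ} (hX : 0 < X) {φ : (Fin m → ℝ) → ℝ≥0∞} (hφ : Measurable φ) :
    ∫⁻ x, φ (X⁻¹ • x) = ENNReal.ofReal (X ^ m) * ∫⁻ x, φ x := by
  rw [scale_int (inv_pos.2 hX) hφ, inv_pow, inv_inv]

section frame

variable {n m : ℕ} {U V U' V' : Type} [Fintype V]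

/-- radial integration over the polar body -/
theorem rad_pol (h2 : S_rad) {F : Fr n U V} (hF : Good F) {f : (Fin n → ℝ) → ℝ≥0∞}
    (hf : Measurable f) (hf0 : ∀ t : ℝ, 0 < t → ∀ y, f (t • y) = f y) {Ψ : ℝ → ℝ≥0∞}
    (hΨ : Measurable Ψ) :
    ∫⁻ y in F.pol, Ψ (F.h y) * f y =
      (∫⁻ r in Ioc (0 : ℝ) 1, ENNReal.ofReal (n * r ^ (n - 1)) * Ψ r) *
        ∫⁻ y in F.pol, f y := by
  have h := h2 n F.h hF.n_pos (h_meas hF) (h_nonneg hF) (fun t ht y => h_smul hF ht y)
    (vol_ne_top hF) f hf hf0 ((Iic (1 : ℝ)).indicator Ψ) (hΨ.indicator measurableSet_Iic)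
  have e1 : ∫⁻ y, (Iic (1 : ℝ)).indicator Ψ (F.h y) * f y =
      ∫⁻ y in F.pol, Ψ (F.h y) * f y := by
    rw [← lintegral_indicator (pol_meas hF)]
    refine lintegral_congr fun y => ?_
    by_cases hy : F.h y ≤ 1
    · rw [indicator_of_mem (show F.h y ∈ Iic (1 : ℝ) from hy),
        indicator_of_mem (show y ∈ F.pol from hy)]
    · rw [indicator_of_notMem (show F.h y ∉ Iic (1 : ℝ) from hy),
        indicator_of_notMem (show y ∉ F.pol from hy), zero_mul]
  have e2 : ∫⁻ r in Ioi (0 : ℝ), ENNReal.ofReal (n * r ^ (n - 1)) *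
      (Iic (1 : ℝ)).indicator Ψ r = ∫⁻ r in Ioc (0 : ℝ) 1, ENNReal.ofReal (n * r ^ (n - 1)) * Ψ r := by
    have : Ioc (0 : ℝ) 1 = Iic 1 ∩ Ioi 0 := by
      ext r; simp [and_comm]
    rw [this, ← Measure.restrict_restrict measurableSet_Iic,
      ← lintegral_indicator measurableSet_Iic]
    refine lintegral_congr fun r => ?_
    by_cases hr : r ∈ Iic (1 : ℝ)
    · rw [indicator_of_mem hr, indicator_of_mem hr]
    · rw [indicator_of_notMem hr, indicator_of_notMem hr, mul_zero]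
  rw [e1, e2] at h
  exact h

/-- the level sets of `h` are null sets -/
theorem sph_null (h2 : S_rad) {F : Fr n U V} (hF : Good F) (X : ℝ) :
    volume {y | F.h y = X} = 0 := by
  have hm : MeasurableSet {y | F.h y = X} := (h_meas hF) (measurableSet_singleton X)
  have h := h2 n F.h hF.n_pos (h_meas hF) (h_nonneg hF) (fun t ht y => h_smul hF ht y)
    (vol_ne_top hF) (fun _ => 1) measurable_const (fun _ _ _ => rfl)
    (({X} : Set ℝ).indicator 1) (measurable_one.indicator (measurableSet_singleton X))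
  have e1 : ∫⁻ y, ({X} : Set ℝ).indicator 1 (F.h y) * (1 : ℝ≥0∞) = volume {y | F.h y = X} := by
    rw [← lintegral_indicator_one hm]
    refine lintegral_congr fun y => ?_
    by_cases hy : F.h y = X
    · rw [indicator_of_mem (show F.h y ∈ ({X} : Set ℝ) from hy),
        indicator_of_mem (show y ∈ {y | F.h y = X} from hy)]
      simp
    · rw [indicator_of_notMem (show F.h y ∉ ({X} : Set ℝ) from hy),
        indicator_of_notMem (show y ∉ {y | F.h y = X} from hy), zero_mul]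
  have e2 : ∫⁻ r in Ioi (0 : ℝ), ENNReal.ofReal (n * r ^ (n - 1)) *
      ({X} : Set ℝ).indicator 1 r = 0 := by
    rw [lintegral_eq_zero_iff']
    · refine ae_restrict_of_ae ?_
      have : ∀ᵐ r : ℝ, r ≠ X := by
        rw [ae_iff]
        simp
      filter_upwards [this] with r hr
      rw [indicator_of_notMem (show r ∉ ({X} : Set ℝ) from hr), mul_zero]
      rfl
    · refine Measurable.aemeasurable ?_
      exact (ENNReal.measurable_ofReal.comp (by fun_prop)).mul
        (measurable_one.indicator (measurableSet_singleton X))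
  rw [e1, e2, zero_mul] at h
  exact h

end frame

theorem HH_succ (k : ℕ) (hk : 1 ≤ k) : HH k - HH (k - 1) = 1 / k := by
  obtain ⟨k, rfl⟩ : ∃ l, k = l + 1 := ⟨k - 1, by omega⟩
  unfold HH
  rw [Nat.add_sub_cancel, Finset.sum_range_succ]
  push_cast
  ring

theorem c_one (h3 : S_beta) (n m : ℕ) (hn : 0 < n) :
    ∫⁻ r in Ioc (0 : ℝ) 1, ENNReal.ofReal (n * r ^ (n - 1)) * ENNReal.ofReal (r ^ m) =
      ENNReal.ofReal ((n : ℝ) / (n + m)) := by
  obtain ⟨h, -, -⟩ := h3 (n + m) 0 (by omega)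
  have hpos : (0 : ℝ) < n + m := by positivity
  have e1 : ∫⁻ r in Ioc (0 : ℝ) 1, ENNReal.ofReal (n * r ^ (n - 1)) * ENNReal.ofReal (r ^ m) =
      ∫⁻ r in Ioc (0 : ℝ) 1, ENNReal.ofReal ((n : ℝ) / (n + m)) *
        ENNReal.ofReal (((n + m : ℕ) : ℝ) * r ^ (n + m - 1) * (1 - r) ^ 0) := by
    refine setLIntegral_congr_fun measurableSet_Ioc fun r hr => ?_
    rw [← ENNReal.ofReal_mul (by have := hr.1.le; positivity),
      ← ENNReal.ofReal_mul (by positivity)]
    congr 1
    rw [pow_zero, show n + m - 1 = (n - 1) + m by omega, pow_add]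
    push_cast
    field_simp
  rw [e1, lintegral_const_mul' _ _ ENNReal.ofReal_ne_top, h, ← ENNReal.ofReal_mul (by positivity)]
  congr 1
  rw [Nat.factorial_zero, Nat.add_zero]
  have : ((n + m).factorial : ℝ) ≠ 0 := by exact_mod_cast Nat.factorial_ne_zero _
  field_simp
  simp

theorem c_log (h3 : S_beta) (n m : ℕ) (hn : 0 < n) :
    ∫⁻ r in Ioc (0 : ℝ) 1, ENNReal.ofReal (n * r ^ (n - 1)) *
      ENNReal.ofReal (r ^ m * (((n : ℝ) + m) * -Real.log r)) =
      ENNReal.ofReal ((n : ℝ) / (n + m)) := by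
  obtain ⟨-, h, -⟩ := h3 (n + m) 0 (by omega)
  have hpos : (0 : ℝ) < n + m := by positivity
  have e1 : ∫⁻ r in Ioc (0 : ℝ) 1, ENNReal.ofReal (n * r ^ (n - 1)) *
      ENNReal.ofReal (r ^ m * (((n : ℝ) + m) * -Real.log r)) =
      ∫⁻ r in Ioc (0 : ℝ) 1, ENNReal.ofReal (n : ℝ) *
        ENNReal.ofReal (((n + m : ℕ) : ℝ) * r ^ (n + m - 1) * (1 - r) ^ 0 * -Real.log r) := by
    refine setLIntegral_congr_fun measurableSet_Ioc fun r hr => ?_
    rw [← ENNReal.ofReal_mul (by have := hr.1.le; positivity),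
      ← ENNReal.ofReal_mul (by positivity)]
    congr 1
    rw [pow_zero, show n + m - 1 = (n - 1) + m by omega, pow_add]
    push_cast
    ring
  rw [e1, lintegral_const_mul' _ _ ENNReal.ofReal_ne_top, h, ← ENNReal.ofReal_mul (by positivity)]
  congr 1
  have h5 := HH_succ (n + m) (by omega)
  rw [Nat.factorial_zero, Nat.add_zero, h5]
  have : ((n + m).factorial : ℝ) ≠ 0 := by exact_mod_cast Nat.factorial_ne_zero _
  push_cast
  field_simp

end Pool.Agent.TH416.LP931
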