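import Pool.Agent.TH416.LP931.Base

/-!
# LP931-C4 (job 2413, helper416 for helper931): the norm certificate of a sum
-/

set_option autoImplicit false

open MeasureTheory Set
open scoped ENNReal Matrix

noncomputable section

namespace Pool.Agent.TH416.LP931

open Pool.Agent.TH931.LP

theorem ofReal_exp_add (x y : ℝ) : ENNReal.ofReal (Real.exp (x + y)) =
    ENNReal.ofReal (Real.exp x) * ENNReal.ofReal (Real.exp y) := by
  rw [Real.exp_add, ENNReal.ofReal_mul (Real.exp_pos _).le]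

theorem ofReal_exp_mono {x y : ℝ} (h : x ≤ y) :
    ENNReal.ofReal (Real.exp x) ≤ ENNReal.ofReal (Real.exp y) :=
  ENNReal.ofReal_le_ofReal (Real.exp_le_exp.2 h)

theorem zsum (h1 : S_app) (_h4 : S_gprod) : S_zsum := by
  intro n m U V U' V' _ _ _ _ F G α α' lam lam' LZ LZ' Z Z' g g' hF hG hB hB' hZ hZ'
  have hU : Nonempty U := ⟨F.ft 0⟩
  have hU' : Nonempty U' := ⟨G.ft 0⟩
  have hpol : (F.sum G).pol = bl F.pol G.pol := sum_pol F G
  refine ⟨bl Z Z', bl_meas hZ.measZ hZ'.measZ, ?_, ?_, ?_, ?_, ?_, ?_, ?_⟩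
  · -- null set
    have hsub : (F.sum G).pol \ bl Z Z' ⊆ bl (F.pol \ Z) G.pol ∪ bl F.pol (G.pol \ Z') := by
      rintro x ⟨hx, hx2⟩
      rw [hpol] at hx
      by_cases h : p1 x ∈ Z
      · right
        exact ⟨hx.1, hx.2, fun h' => hx2 ⟨h, h'⟩⟩
      · left
        exact ⟨⟨hx.1, h⟩, hx.2⟩
    refine measure_mono_null hsub (measure_union_null ?_ ?_)
    · rw [bl_vol h1 ((pol_meas hF).diff hZ.measZ) (pol_meas hG), hZ.nullZ, zero_mul]
    · rw [bl_vol h1 (pol_meas hF) ((pol_meas hG).diff hZ'.measZ), hZ'.nullZ, mul_zero]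
  · intro b hb
    exact max_lt (hZ.subZ _ hb.1) (hZ'.subZ _ hb.2)
  · exact (hZ.meas.comp p1_meas).add (hZ'.meas.comp p2_meas)
  · intro b hb
    exact add_nonneg (hZ.nonneg _ hb.1) (hZ'.nonneg _ hb.2)
  · intro b hb τ
    have hw0 : ∀ a', 0 ≤ lam' (p2 b) a' := fun a' => hB'.nonneg _ _ (hZ'.subZ _ hb.2).le
    have hw1 : ∑ a', lam' (p2 b) a' = 1 := hB'.one _ (hZ'.subZ _ hb.2).le
    have hfm : Measurable fun z : Fin (n + m) → ℝ =>
        ENNReal.ofReal (Real.exp (z ⬝ᵥ b - ⨆ a, ((F.sum G).u a ⬝ᵥ z - τ a))) := by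
      refine ENNReal.measurable_ofReal.comp (Real.measurable_exp.comp ?_)
      exact (dot_meas b).sub (Measurable.iSup fun a => (dot_meas' _).sub_const _)
    rw [h1 n m _ hfm]
    -- the inner integral
    have hin : ∀ z1 : Fin n → ℝ, ∫⁻ z2 : Fin m → ℝ, ENNReal.ofReal (Real.exp
        (Fin.append z1 z2 ⬝ᵥ b - ⨆ a, ((F.sum G).u a ⬝ᵥ Fin.append z1 z2 - τ a))) ≤
        ENNReal.ofReal (Real.exp (LZ' (p2 b))) * ENNReal.ofReal (Real.exp (z1 ⬝ᵥ p1 b -
          ⨆ a, (F.u a ⬝ᵥ z1 - ∑ a', lam' (p2 b) a' * τ (a, a')))) := by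
      intro z1
      have hpt : ∀ z2 : Fin m → ℝ, ENNReal.ofReal (Real.exp
          (Fin.append z1 z2 ⬝ᵥ b - ⨆ a, ((F.sum G).u a ⬝ᵥ Fin.append z1 z2 - τ a))) ≤
          ENNReal.ofReal (Real.exp (z1 ⬝ᵥ p1 b)) * ENNReal.ofReal (Real.exp (z2 ⬝ᵥ p2 b -
            ⨆ a', (G.u a' ⬝ᵥ z2 - ⨅ a, (τ (a, a') - F.u a ⬝ᵥ z1)))) := by
        intro z2
        rw [← ofReal_exp_add]
        refine ofReal_exp_mono ?_
        have hS : ⨆ a', (G.u a' ⬝ᵥ z2 - ⨅ a, (τ (a, a') - F.u a ⬝ᵥ z1)) ≤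
            ⨆ a, ((F.sum G).u a ⬝ᵥ Fin.append z1 z2 - τ a) := by
          refine sup_pair (fun a' a => τ (a, a')) (fun a' => G.u a' ⬝ᵥ z2)
            (fun a => F.u a ⬝ᵥ z1) _ fun a' a => ?_
          have h2 := le_ciSup (f := fun a => ((F.sum G).u a ⬝ᵥ Fin.append z1 z2 - τ a))
            (Set.finite_range _).bddAbove (a, a')
          have h3 : (F.sum G).u (a, a') ⬝ᵥ Fin.append z1 z2 = F.u a ⬝ᵥ z1 + G.u a' ⬝ᵥ z2 := by
            show Fin.append (F.u a) (G.u a') ⬝ᵥ Fin.append z1 z2 = _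
            rw [dot_app, p1_app, p2_app]
          simp only [h3] at h2
          linarith
        rw [dot_app]
        linarith
      refine (lintegral_mono hpt).trans ?_
      rw [lintegral_const_mul' _ _ ENNReal.ofReal_ne_top]
      have h2 := hZ'.cert (p2 b) hb.2 (fun a' => ⨅ a, (τ (a, a') - F.u a ⬝ᵥ z1))
      refine (mul_le_mul_right h2 _).trans ?_
      rw [← ofReal_exp_add, ← ofReal_exp_add]
      refine ofReal_exp_mono ?_
      have h3 := comb_le (fun a' => lam' (p2 b) a') hw0 (fun a' a => τ (a, a')) 1 hw1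
        (fun a => F.u a ⬝ᵥ z1)
      simp only [one_mul] at h3
      linarith
    refine (lintegral_mono hin).trans ?_
    rw [lintegral_const_mul' _ _ ENNReal.ofReal_ne_top]
    have h2 := hZ.cert (p1 b) hb.1 (fun a => ∑ a', lam' (p2 b) a' * τ (a, a'))
    refine (mul_le_mul_right h2 _).trans ?_
    rw [← ofReal_exp_add]
    refine ofReal_exp_mono (le_of_eq ?_)
    have h3 : ∑ a, lamS lam lam' b a * τ a =
        ∑ a, lam (p1 b) a * ∑ a', lam' (p2 b) a' * τ (a, a') := by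
      rw [Fintype.sum_prod_type]
      refine Finset.sum_congr rfl fun a _ => ?_
      rw [Finset.mul_sum]
      refine Finset.sum_congr rfl fun a' _ => ?_
      unfold lamS
      ring
    rw [h3]
    unfold LZS
    ring
  · exact add_nonneg hZ.g_nonneg hZ'.g_nonneg
  · -- the mean
    have hmain : ∫⁻ b in bl F.pol G.pol, ENNReal.ofReal (LZS LZ LZ' b) ≤
        (∫⁻ b in bl F.pol G.pol, ENNReal.ofReal (LZ (p1 b))) +
          ∫⁻ b in bl F.pol G.pol, ENNReal.ofReal (LZ' (p2 b)) := by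
      have hme : Measurable fun b : Fin (n + m) → ℝ => ENNReal.ofReal (LZ (p1 b)) :=
        ENNReal.measurable_ofReal.comp (hZ.meas.comp p1_meas)
      rw [← lintegral_add_left hme]
      exact lintegral_mono fun b => ENNReal.ofReal_add_le
    rw [hpol]
    refine hmain.trans ?_
    rw [bl_int1 h1 (pol_meas hF) (pol_meas hG) (f := fun x => ENNReal.ofReal (LZ x))
        (ENNReal.measurable_ofReal.comp hZ.meas),
      bl_int2 h1 (pol_meas hF) (pol_meas hG) (g := fun x => ENNReal.ofReal (LZ' x))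
        (ENNReal.measurable_ofReal.comp hZ'.meas), bl_vol h1 (pol_meas hF) (pol_meas hG),
      ENNReal.ofReal_add hZ.g_nonneg hZ'.g_nonneg, add_mul]
    refine add_le_add ?_ ?_
    · calc (∫⁻ x in F.pol, ENNReal.ofReal (LZ x)) * volume G.pol
          ≤ (ENNReal.ofReal g * volume F.pol) * volume G.pol := mul_le_mul_left hZ.mean _
        _ = _ := by ring
    · calc volume F.pol * ∫⁻ x in G.pol, ENNReal.ofReal (LZ' x)
          ≤ volume F.pol * (ENNReal.ofReal g' * volume G.pol) := mul_le_mul_right hZ'.mean _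
        _ = _ := by ring

end Pool.Agent.TH416.LP931
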